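import Pool.Agent.V1127.DetGen

set_option autoImplicit false

namespace Pool.Agent.Results.MP_c1d873_al.NoDetectingGroup

universe u

/-- a compact connected smooth manifold of dimension `n`, with or without boundary: a compact
connected Hausdorff space with a smooth atlas modelled on the half-space -/
class SmoothCompactConnected (n : ℕ) [NeZero n] (M : Type) [TopologicalSpace M]
    [ChartedSpace (EuclideanHalfSpace n) M] : Prop where
  t2 : T2Space M
  compact : CompactSpace M
  connected : ConnectedSpace M
  smooth : IsManifold (modelWithCornersEuclideanHalfSpace n) ((⊤ : ℕ∞) : WithTop ℕ∞) M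

/-- `G` acts faithfully by `C^k` diffeomorphisms on `M`: an injective homomorphism from `G` to the
bijections of `M` all of whose values (and hence also their inverses) are `C^k`. -/
def ActsFaithfully (k : ℕ∞) (G : Type u) [Group G] (n : ℕ) [NeZero n] (M : Type)
    [TopologicalSpace M] [ChartedSpace (EuclideanHalfSpace n) M] : Prop :=
  ∃ ρ : G →* Equiv.Perm M, Function.Injective ρ ∧
    ∀ g : G, ContMDiff (modelWithCornersEuclideanHalfSpace n)
      (modelWithCornersEuclideanHalfSpace n) (k : WithTop ℕ∞) (ρ g)

/-- `M` and `N` are `C^k`-diffeomorphic -/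
def Diffeomorphic (k : ℕ∞) (n : ℕ) [NeZero n] (M N : Type) [TopologicalSpace M]
    [ChartedSpace (EuclideanHalfSpace n) M] [TopologicalSpace N]
    [ChartedSpace (EuclideanHalfSpace n) N] : Prop :=
  Nonempty (Diffeomorph (modelWithCornersEuclideanHalfSpace n)
    (modelWithCornersEuclideanHalfSpace n) M N (k : WithTop ℕ∞))

/-- `G` is a `C^k` detecting group for the `n`-dimensional manifold `M`: for every compact connected
smooth manifold `N` of dimension `n`, `G` acts faithfully by `C^k` diffeomorphisms on `N` if and
only if `N` is `C^k`-diffeomorphic to `M`. -/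
def IsDetecting (k : ℕ∞) (G : Type u) [Group G] (n : ℕ) [NeZero n] (M : Type)
    [TopologicalSpace M] [ChartedSpace (EuclideanHalfSpace n) M] : Prop :=
  ∀ (N : Type) [TopologicalSpace N] [ChartedSpace (EuclideanHalfSpace n) N]
    [SmoothCompactConnected n N], ActsFaithfully k G n N ↔ Diffeomorphic k n N M

open Pool.Agent.V1127.Det

/-- **Negative answer to Q1 and Q2 for every regularity `k`, finite or infinite.** Let `M = [0,1]`.
Every group which acts faithfully by `C^k` diffeomorphisms on `[0,1]` acts faithfully by `C^k`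
diffeomorphisms on a compact connected smooth one-dimensional manifold (the circle) which is not
even homeomorphic to `[0,1]`. Hence no group whatsoever (finitely generated, countable or
uncountable) is a `C^k` detecting group for `[0,1]`. -/
theorem result (k : ℕ∞) (hk : 1 ≤ k) :
    SmoothCompactConnected 1 (Set.Icc (0 : ℝ) 1) ∧
    (∃ (S : Type) (_ : TopologicalSpace S) (_ : ChartedSpace (EuclideanHalfSpace 1) S),
      SmoothCompactConnected 1 S ∧ IsEmpty (S ≃ₜ Set.Icc (0 : ℝ) 1) ∧
      ∀ (G : Type u) [Group G], ActsFaithfully k G 1 (Set.Icc (0 : ℝ) 1) →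
        ActsFaithfully k G 1 S) ∧
    ∀ (G : Type u) [Group G], ¬ IsDetecting k G 1 (Set.Icc (0 : ℝ) 1) := by
  have hI : SmoothCompactConnected 1 (Set.Icc (0 : ℝ) 1) :=
    { t2 := inferInstance
      compact := inferInstance
      connected := Subtype.connectedSpace (isConnected_Icc zero_le_one)
      smooth := inferInstance }
  have hS : @SmoothCompactConnected 1 _ Circ _ circCS := by
    letI := circCS
    exact
      { t2 := inferInstance
        compact := inferInstance
        connected := inferInstance
        smooth := circManifold }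
  have hno : IsEmpty (Circ ≃ₜ Set.Icc (0 : ℝ) 1) := ⟨fun e => not_homeo e.symm⟩
  have hact : ∀ (G : Type u) [Group G], ActsFaithfully k G 1 (Set.Icc (0 : ℝ) 1) →
      @ActsFaithfully k G _ 1 _ Circ _ circCS := by
    intro G _ ⟨ρ, hρ, hs⟩
    have hD : ∀ g, Dif 1 (ρ g) := by
      intro g
      refine ⟨(hs g).of_le (by exact_mod_cast hk), ?_⟩
      have e : (ρ g).symm = ρ g⁻¹ := by rw [map_inv]; rfl
      rw [e]
      exact (hs g⁻¹).of_le (by exact_mod_cast hk)
    exact ⟨dbgHom ρ hD, dbgHom_inj ρ hD hρ, fun g => dbg_smooth hk (hD g) (hs g)⟩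
  refine ⟨hI, ⟨Circ, inferInstance, circCS, hS, hno, hact⟩, ?_⟩
  intro G _ hdet
  have h1 : ActsFaithfully k G 1 (Set.Icc (0 : ℝ) 1) :=
    (@hdet (Set.Icc (0 : ℝ) 1) _ _ hI).2 ⟨Diffeomorph.refl _ _ _⟩
  let _ := circCS
  obtain ⟨e⟩ := (@hdet Circ _ circCS hS).1 (hact G h1)
  exact hno.false e.toHomeomorph

end Pool.Agent.Results.MP_c1d873_al.NoDetectingGroup
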